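import Pool.Agent.L0h15.OL.Conv

/-!
# MP_62d77c_ag: the obstructions to orthogonal lifts are finite-dimensional

`T` consists of the Chow groups (with rational coefficients) of smooth proper varieties over a number
field and of their regular proper flat models, with known formal properties. `HasLift M i c` says that
`c` in `Ch^i` of the generic fibre of the model `M` has a lift in `Ch^i(M)` orthogonal to the classes of
codimension `dim + 1 - i` supported in closed fibres. `liftable X` is the group of the combinations of
images, under correspondences, of homologically trivial classes which have an orthogonal lift to some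
regular model of some variety.
-/

set_option autoImplicit false

namespace Pool.Agent.Results.MP_62d77c_ag.FiniteCodimension

open Pool.Agent.L0h15.OL

theorem result (T : Cycles) (hV : T.Varieties) (hM : T.Models) (A : T.Functoriality) :
    -- the criterion: orthogonality to the classes of each closed fibre whose intersection numbers with
    -- all classes of this fibre are zero
    (∀ M i z, inn (T.hom (T.gen M)) (ap (T.res M) z) →
      ap (T.codim (T.gen M) i) (ap (T.res M) z) = ap (T.res M) z →
      (T.HasLift M i (ap (T.res M) z) ↔
        ∀ v w, (∀ y, ev (T.int M v) (ap (T.incl M v) y) w = 0) → ev (T.int M v) z w = 0)) ∧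
    -- the liftable classes are homologically trivial and of finite codimension, for every variety
    (∀ X, (∀ c, inn (T.liftable X) c → inn (T.hom X) c) ∧ FiniteCodim (T.hom X) (T.liftable X)) ∧
    -- the obstruction is a representation of the correspondences
    (∀ Y X (f : Lin (T.Ch Y) (T.Ch X)) f', T.Corr f f' →
      ∀ c, inn (T.liftable Y) c → inn (T.liftable X) (ap f c)) ∧
    -- for the generic fibre of a model the liftable classes are the classes with orthogonal lifts
    (∀ M i c, inn (T.hom (T.gen M)) c → ap (T.codim (T.gen M) i) c = c →
      (T.HasLift M i c ↔ inn (T.liftable (T.gen M)) c)) ∧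
    -- algebraically trivial classes are liftable
    (∀ (C : T.Curves) X c, inn (C.algTriv X) c → inn (T.liftable X) c) ∧
    -- the cohomological criterion, with coefficients in a field extension
    (∀ M, T.FibralCohomology M → ∀ i, T.Question M i) := by
  refine ⟨fun M i z hz hi => ?_, fun X => ⟨fun c hc => ?_, Cycles.toD_finite hV hM A X⟩,
    fun Y X f f' hf c hc => ?_, fun M i c hc hi => ?_, fun C X c hc => ?_, fun M h i => ?_⟩
  · refine ((Cycles.toD hV hM A).hasLift_iff M i hi).trans ?_
    exact (Cycles.toD hV hM A).mem_lifts_iff M hz
  · exact (Cycles.toD hV hM A).liftable_le_hom X ((Cycles.toD_liftable hV hM A X c).1 hc)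
  · exact (Cycles.toD_liftable hV hM A X _).2 ((Cycles.toD hV hM A).corr_liftable (b := (f, f')) hf
      ((Cycles.toD_liftable hV hM A Y c).1 hc))
  · exact ((Cycles.toD hV hM A).hasLift_iff_liftable M i hc hi).trans
      (Cycles.toD_liftable hV hM A (T.gen M) c).symm
  · exact (Cycles.toD_liftable hV hM A X c).2 ((Cycles.toD hV hM A).algTriv_le
      (Cycles.toCurves hV hM A C) X (Cycles.toD_algTriv hV hM A C X hc))
  · exact ((Cycles.toD hV hM A).question_iff M).2
      ((Cycles.toD hV hM A).liftable_of_cohomology M h) i

end Pool.Agent.Results.MP_62d77c_ag.FiniteCodimension
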