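import Pool.Agent.L0h15.OL.AxH
import Pool.Agent.L0h15.OL.Conv
import Pool.Agent.L0h15.OL.Height

/-!
# MP_62d77c_ag: the question and the height pairing

`T` consists of the Chow groups (with rational coefficients) of smooth proper varieties over a number
field and of their regular proper flat models, with known formal properties, and `G` is the Gillet-Soulé
pairing. `Orth M z` says that the class `z` on the model `M` is homologically trivial on the generic
fibre and orthogonal to all cycles supported in closed fibres. `liftable X` is the group of the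
combinations of images, under correspondences, of homologically trivial classes which have an
orthogonal lift to some regular model of some variety.
-/

set_option autoImplicit false

namespace Pool.Agent.Results.MP_62d77c_ag.HeightPairing

open Pool.Agent.L0h15.OL

/-- the pairing in the other presentation of the data -/
def toGS {T : Cycles} (hV : T.Varieties) (hM : T.Models) (A : T.Functoriality)
    (G : T.GilletSoule A) : GS (Cycles.toD hV hM A) where
  logN := G.logN
  pos := G.pos
  gs := G.gs
  add := G.add
  smul := G.smul
  symm := G.symm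
  fib := G.fib
  push := fun f z w hz hw => G.push f z w hz hw

theorem result (T : Cycles) (hV : T.Varieties) (hM : T.Models) (A : T.Functoriality)
    (G : T.GilletSoule A) :
    -- the question Q1 for the model (in all codimensions) holds if and only if the Gillet-Soulé pairing
    -- of an orthogonal lift with any lift defines a pairing of the homologically trivial classes
    (∀ M, (∀ i, T.Question M i) ↔ ∃ h : T.Ch (T.gen M) → T.Ch (T.gen M) → ℝ,
      ∀ z w, T.Orth M z → T.HomTriv M w → h (ap (T.res M) z) (ap (T.res M) w) = G.gs M z w) ∧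
    -- the height pairing exists, without any assumption, on the liftable classes of all varieties
    (∃ h, G.IsHeight Set.univ h ∧ T.IsBilinear h) ∧
    -- and it is determined by its values for any dominating class of models
    (∀ S : Set T.Model, (∀ X, T.Dominates S X) → ∀ h h', G.IsHeight S h → G.IsHeight S h' →
      ∀ X c c', inn (T.liftable X) c → inn (T.liftable X) c' → h X c c' = h' X c c') := by
  refine ⟨fun M => ?_, ⟨(toGS hV hM A G).H, ⟨fun M z w _ hz hw => ?_, fun Y X f f' c c' hf hc hc' => ?_⟩,
    fun X c d e hc hd he => ⟨?_, ?_, fun r => ?_⟩⟩, fun S hS h h' hh hh' X c c' hc hc' => ?_⟩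
  · refine ((toGS hV hM A G).question_iff_pairing M).trans ⟨?_, ?_⟩
    · rintro ⟨h, hh⟩
      exact ⟨h, fun z w hz hw => hh z ⟨hz.2, hz.1⟩ w hw⟩
    · rintro ⟨h, hh⟩
      exact ⟨h, fun z hz w hw => hh z w ⟨hz.2, hz.1⟩ hw⟩
  · exact (toGS hV hM A G).H_model M ⟨hz.2, hz.1⟩ ⟨hw.2, hw.1⟩
  · exact (toGS hV hM A G).H_corr (f := (f, f')) hf ((Cycles.toD_liftable hV hM A Y c).1 hc)
      ((Cycles.toD_liftable hV hM A X c').1 hc')
  · exact (toGS hV hM A G).H_symm X ((Cycles.toD_liftable hV hM A X c).1 hc)
      ((Cycles.toD_liftable hV hM A X e).1 he)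
  · exact (toGS hV hM A G).H_add X ((Cycles.toD_liftable hV hM A X c).1 hc)
      ((Cycles.toD_liftable hV hM A X d).1 hd) ((Cycles.toD_liftable hV hM A X e).1 he)
  · exact (toGS hV hM A G).H_smul X r ((Cycles.toD_liftable hV hM A X c).1 hc)
      ((Cycles.toD_liftable hV hM A X e).1 he)
  · refine GS.H_unique (T := Cycles.toD hV hM A) S (fun X => Cycles.toD_dominates hV hM A (hS X)) h h'
      ?_ ?_ ?_ X ((Cycles.toD_liftable hV hM A X c).1 hc) ((Cycles.toD_liftable hV hM A X c').1 hc')
    · intro M hMS z hz w hw
      exact (hh.1 M z w hMS ⟨hz.2, hz.1⟩ ⟨hw.2, hw.1⟩).trans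
        (hh'.1 M z w hMS ⟨hz.2, hz.1⟩ ⟨hw.2, hw.1⟩).symm
    · intro X Y f hf c hc c' hc'
      exact hh.2 Y X f.1 f.2 c c' hf ((Cycles.toD_liftable hV hM A Y c).2 hc)
        ((Cycles.toD_liftable hV hM A X c').2 hc')
    · intro X Y f hf c hc c' hc'
      exact hh'.2 Y X f.1 f.2 c c' hf ((Cycles.toD_liftable hV hM A Y c).2 hc)
        ((Cycles.toD_liftable hV hM A X c').2 hc')

end Pool.Agent.Results.MP_62d77c_ag.HeightPairing
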