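import Pool.Agent.L0h15.OL.Conv

/-!
# MP_62d77c_ag: independence of the model and reduction to the middle codimension

`T` consists of the Chow groups (with rational coefficients) of smooth proper varieties over a number
field and of their regular proper flat models, with known formal properties. `HasLift M i c` says that
`c` in `Ch^i` of the generic fibre of the model `M` has a lift in `Ch^i(M)` orthogonal to the classes of
codimension `dim + 1 - i` supported in closed fibres, and `Question M i` is the question Q1 for `M` and
`i`. `liftable X` is a group of classes which is defined for every `X`, without a model of `X`: the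
combinations of images, under correspondences, of homologically trivial classes which have an
orthogonal lift to some regular model of some other variety.
-/

set_option autoImplicit false

namespace Pool.Agent.Results.MP_62d77c_ag.MiddleCodimension

open Pool.Agent.L0h15.OL

theorem result (T : Cycles) (hV : T.Varieties) (hM : T.Models) (A : T.Functoriality) :
    -- the classes with an orthogonal lift do not depend on the regular model
    (∀ M i c, inn (T.hom (T.gen M)) c → ap (T.codim (T.gen M) i) c = c →
      (T.HasLift M i c ↔ inn (T.liftable (T.gen M)) c)) ∧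
    -- and they are preserved by correspondences
    (∀ Y X (f : Lin (T.Ch Y) (T.Ch X)) f', T.Corr f f' →
      ∀ c, inn (T.liftable Y) c → inn (T.liftable X) (ap f c)) ∧
    -- cycles of dimension `e`: reduction to varieties of dimension `2 e + 1`, for one class of models
    -- which dominates these varieties
    (T.Lefschetz → ∀ (e : ℕ) (S : Set T.Model), (∀ X, T.dim X = 2 * e + 1 → T.Dominates S X) →
      (∀ M, M ∈ S → T.dim (T.gen M) = 2 * e + 1 → T.Question M (e + 1)) →
      (∀ M, T.Question M (T.dim (T.gen M) - e)) ∧
      ∀ X c, inn (T.hom X) c → ap (T.codim X (T.dim X - e)) c = c → inn (T.liftable X) c) ∧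
    -- Q1 for all models and codimensions is equivalent to Q1 for the models in one dominating class,
    -- in the middle codimension `e + 1` for varieties of dimension `2 e + 1`
    (T.Lefschetz → ∀ S : Set T.Model, (∀ X, Odd (T.dim X) → T.Dominates S X) →
      ((∀ M i, T.Question M i) ↔
        ∀ M, M ∈ S → ∀ e : ℕ, T.dim (T.gen M) = 2 * e + 1 → T.Question M (e + 1))) ∧
    -- Q1 for all models of the varieties whose homologically trivial classes come, by correspondences,
    -- from a variety with a model such as a smooth one
    (∀ P : T.Model, (∀ z, inn (T.hom (T.gen P)) (ap (T.res P) z) → ∀ v w, ev (T.int P v) z w = 0) →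
      ∀ (M : T.Model) (f : Lin (T.Ch (T.gen P)) (T.Ch (T.gen M))) f', T.Corr f f' →
        (∀ c, inn (T.hom (T.gen M)) c → ∃ c', inn (T.hom (T.gen P)) c' ∧ ap f c' = c) →
        ∀ i, T.Question M i) := by
  have hcorr : ∀ Y X (f : Lin (T.Ch Y) (T.Ch X)) f', T.Corr f f' →
      ∀ c, inn (T.liftable Y) c → inn (T.liftable X) (ap f c) := by
    intro Y X f f' hf c hc
    exact (Cycles.toD_liftable hV hM A X _).2 ((Cycles.toD hV hM A).corr_liftable (b := (f, f')) hf
      ((Cycles.toD_liftable hV hM A Y c).1 hc))
  have hiff : ∀ M i c, inn (T.hom (T.gen M)) c → ap (T.codim (T.gen M) i) c = c →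
      (T.HasLift M i c ↔ inn (T.liftable (T.gen M)) c) := by
    intro M i c hc hi
    exact ((Cycles.toD hV hM A).hasLift_iff_liftable M i hc hi).trans
      (Cycles.toD_liftable hV hM A (T.gen M) c).symm
  refine ⟨hiff, hcorr, ?_, ?_, ?_⟩
  · intro L e S hS hQ
    have hS' : ∀ X : (Cycles.toD hV hM A).Var, T.dim X = 2 * e + 1 →
        (Cycles.toD hV hM A).Dominates S X := fun X hX => Cycles.toD_dominates hV hM A (hS X hX)
    refine ⟨fun M => (Cycles.toD hV hM A).question_of_middle (Cycles.toLefschetz hV hM A L) e S hS'
      hQ M, fun X c hc hi => ?_⟩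
    exact (Cycles.toD_liftable hV hM A X c).2 ((Cycles.toD hV hM A).liftable_of_question
      (Cycles.toLefschetz hV hM A L) e S hS' hQ X c hc hi)
  · intro L S hS
    refine ⟨fun h M _ e _ => h M _, fun h M i => ?_⟩
    exact (Cycles.toD hV hM A).question_all (Cycles.toLefschetz hV hM A L) S
      (fun X hX => Cycles.toD_dominates hV hM A (hS X hX)) (fun N hN e hd => h N hN e hd) M i
  · intro P hP M f f' hf hsurj i c hc hi
    obtain ⟨c', hc', rfl⟩ := hsurj c hc
    rw [hiff M i _ hc hi]
    refine hcorr _ _ f f' hf c' ?_
    obtain ⟨z, rfl⟩ := hM.res_surjective P c'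
    exact Submodule.subset_span ⟨P, _, _, _, hV.diagonal _, hc', ⟨z, rfl, hP z hc'⟩, rfl⟩

end Pool.Agent.Results.MP_62d77c_ag.MiddleCodimension
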