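import Pool.Agent.L0h15.OL.Tate

/-!
# MP_62d77c_ag: orthogonal lifts from the weights of the Frobenius and Tate's conjecture

`T` consists of the Chow groups (with rational coefficients) of smooth proper varieties over a number
field and of their regular proper flat models, with known formal properties. `Question M i` is the
question Q1 for the model `M` and the codimension `i`. `WeightTate M i` says that for each finite place
`v` the Frobenius has no nonzero invariants in the kernel of the map from the `ℓ`-adic cohomology group
`H^{2i}` of the generic fibre over the maximal unramified extension to that of the geometric generic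
fibre (a part of the weight-monodromy conjecture for `H^{2i-1}`), and that the generalised eigenspace of
the Frobenius for the eigenvalue `1` in the homology of degree `2 (d + 1 - i)` of the closed fibre is
generated by classes of cycles (Tate's conjecture, for cycles of codimension `i - 1` on the components
of the closed fibre, with the semisimplicity of the eigenvalue `1`).
-/

set_option autoImplicit false

namespace Pool.Agent.Results.MP_62d77c_ag.TateDivisors

open Pool.Agent.L0h15.OL

theorem result (T : Cycles) (hV : T.Varieties) (hM : T.Models) (A : T.Functoriality) :
    -- a model with the two properties in the codimension `i`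
    (∀ M i, T.WeightTate M i → T.Question M i) ∧
    -- all regular models of the varieties which are retracts of its generic fibre (for example if there
    -- is a proper surjective map from the generic fibre)
    (∀ M i, T.WeightTate M i → ∀ N, T.Retract (T.gen N) (T.gen M) 0 → T.Question N i) ∧
    -- the same for the liftable classes, without a regular model
    (∀ M i, T.WeightTate M i → ∀ X, T.Retract X (T.gen M) 0 →
      ∀ c, inn (T.hom X) c → ap (T.codim X i) c = c → inn (T.liftable X) c) ∧
    -- the whole question for the varieties whose homologically trivial cycles of codimension different
    -- from `2` are algebraically trivial, such as threefolds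
    (∀ (C : T.Curves) M, T.WeightTate M 2 → ∀ N, T.Retract (T.gen N) (T.gen M) 0 →
      (∀ i, i ≠ 2 → ∀ c, inn (T.hom (T.gen N)) c → ap (T.codim (T.gen N) i) c = c →
        inn (C.algTriv (T.gen N)) c) → ∀ i, T.Question N i) ∧
    -- the whole question Q1 follows from the two properties in the middle codimension `e + 1` for
    -- models of varieties of dimension `2 e + 1`, for one dominating class of models
    (T.Lefschetz → ∀ S : Set T.Model, (∀ X, Odd (T.dim X) → T.Dominates S X) →
      (∀ M, M ∈ S → ∀ e : ℕ, T.dim (T.gen M) = 2 * e + 1 → T.WeightTate M (e + 1)) →
      ∀ M i, T.Question M i) := by
  refine ⟨fun M i h => Cycles.question_of_weightTate hV hM A h,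
    fun M i h N hN => Cycles.question_of_retract hV hM A h hN,
    fun M i h X hX c hc hi => Cycles.liftable_of_weightTate hV hM A h hX hc hi,
    fun C M h N hN halg i => ?_, fun L S hS h M i => ?_⟩
  · by_cases hi2 : i = 2
    · rw [hi2]
      exact Cycles.question_of_retract hV hM A h hN
    · intro c hc hi
      refine ((Cycles.toD hV hM A).hasLift_iff_liftable N i hc hi).2 ?_
      exact (Cycles.toD hV hM A).algTriv_le (Cycles.toCurves hV hM A C) (T.gen N)
        (Cycles.toD_algTriv hV hM A C (T.gen N) (halg i hi2 c hc hi))
  · exact (Cycles.toD hV hM A).question_all (Cycles.toLefschetz hV hM A L) S
      (fun X hX => Cycles.toD_dominates hV hM A (hS X hX))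
      (fun N hN e hd => Cycles.question_of_weightTate hV hM A (h N hN e hd)) M i

end Pool.Agent.Results.MP_62d77c_ag.TateDivisors
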